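import Pool.Agent.H13.EC.Defs

/-!
# EC board, module CLS: every ideal class is the class of a point
-/

open Polynomial nonZeroDivisors

namespace Pool.Agent.H14.EC

open Pool.Agent.H13.EC

universe u

/-- Multiply a unit fractional ideal by a denominator. -/
theorem exists_integral {R : Type u} [CommRing R] [IsDomain R]
    (u : (FractionalIdeal R⁰ (FractionRing R))ˣ) :
    ∃ (a : R) (I : Ideal R) (_ : a ≠ 0) (U : (FractionalIdeal R⁰ (FractionRing R))ˣ),
      (U : FractionalIdeal R⁰ (FractionRing R)) = (I : FractionalIdeal R⁰ (FractionRing R)) ∧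
      (U : FractionalIdeal R⁰ (FractionRing R)) =
        FractionalIdeal.spanSingleton R⁰ (algebraMap R (FractionRing R) a) * u ∧
      ClassGroup.mk (FractionRing R) U = ClassGroup.mk (FractionRing R) u := by
  obtain ⟨a, I, ha, hI⟩ := FractionalIdeal.exists_eq_spanSingleton_mul
    (u : FractionalIdeal R⁰ (FractionRing R))
  have ha' : algebraMap R (FractionRing R) a ≠ 0 := by
    simpa using ha
  have h1 : FractionalIdeal.spanSingleton R⁰ (algebraMap R (FractionRing R) a) *
      (u : FractionalIdeal R⁰ (FractionRing R)) = (I : FractionalIdeal R⁰ (FractionRing R)) := by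
    rw [hI, ← mul_assoc, FractionalIdeal.spanSingleton_mul_spanSingleton, mul_inv_cancel₀ ha',
      FractionalIdeal.spanSingleton_one, one_mul]
  refine ⟨a, I, ha, u * toPrincipalIdeal R (FractionRing R) (Units.mk0 _ ha'), ?_, ?_, ?_⟩
  · rw [Units.val_mul, coe_toPrincipalIdeal, mul_comm]
    exact h1
  · rw [Units.val_mul, coe_toPrincipalIdeal, mul_comm]
    rfl
  · exact (ClassGroup.mk_eq_mk.mpr ⟨_, rfl⟩).symm

/-- An ideal class is represented by an integral ideal dividing a principal ideal. -/
theorem exists_rep {R : Type u} [CommRing R] [IsDomain R] (c : ClassGroup R) :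
    ∃ (I I' : Ideal R) (d : R) (U : (FractionalIdeal R⁰ (FractionRing R))ˣ), d ≠ 0 ∧
      I * I' = Ideal.span {d} ∧
      (U : FractionalIdeal R⁰ (FractionRing R)) = (I : FractionalIdeal R⁰ (FractionRing R)) ∧
      ClassGroup.mk (FractionRing R) U = c := by
  have key : ∀ u : (FractionalIdeal R⁰ (FractionRing R))ˣ,
      ∃ (I I' : Ideal R) (d : R) (U : (FractionalIdeal R⁰ (FractionRing R))ˣ), d ≠ 0 ∧
      I * I' = Ideal.span {d} ∧
      (U : FractionalIdeal R⁰ (FractionRing R)) = (I : FractionalIdeal R⁰ (FractionRing R)) ∧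
      ClassGroup.mk (FractionRing R) U = ClassGroup.mk (FractionRing R) u := by
    intro u
    obtain ⟨a, I, ha, U, hU, -, hc⟩ := exists_integral u
    obtain ⟨d, I', hd, V, hV, hV2, -⟩ := exists_integral U⁻¹
    refine ⟨I, I', d, U, hd, ?_, hU, hc⟩
    apply FractionalIdeal.coeIdeal_injective (K := FractionRing R)
    show ((I * I' : Ideal R) : FractionalIdeal R⁰ (FractionRing R)) =
      ((Ideal.span {d} : Ideal R) : FractionalIdeal R⁰ (FractionRing R))
    rw [FractionalIdeal.coeIdeal_mul, ← hU, ← hV, hV2, FractionalIdeal.coeIdeal_span_singleton,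
      mul_left_comm, Units.mul_inv, mul_one]
  exact ClassGroup.induction (K := FractionRing R) (P := fun c => ∃ (I I' : Ideal R) (d : R)
      (U : (FractionalIdeal R⁰ (FractionRing R))ˣ), d ≠ 0 ∧
      I * I' = Ideal.span {d} ∧
      (U : FractionalIdeal R⁰ (FractionRing R)) = (I : FractionalIdeal R⁰ (FractionRing R)) ∧
      ClassGroup.mk (FractionRing R) U = c) key c

/-- The quotient of a principal ideal by a divisor. -/
theorem exists_quot {R : Type u} [CommRing R] [IsDomain R] {I I' : Ideal R} {d f : R}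
    (hd : d ≠ 0) (h : I * I' = Ideal.span {d}) (hf : f ∈ I) :
    ∃ J : Ideal R, I * J = Ideal.span {f} := by
  obtain ⟨J, hJ⟩ : ∃ J : Ideal R, ∀ x, x ∈ J ↔ d * x ∈ Ideal.span {f} * I' :=
    ⟨Submodule.comap (LinearMap.mulLeft R d) (Ideal.span {f} * I'), fun x => Iff.rfl⟩
  have h1 : Ideal.span {d} * J = Ideal.span {f} * I' := by
    apply le_antisymm
    · intro x hx
      obtain ⟨z, hz, rfl⟩ := Ideal.mem_span_singleton_mul.mp hx
      exact (hJ z).mp hz
    · intro x hx
      have h2 : x ∈ Ideal.span {d} := by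
        rw [← h]
        exact Ideal.mul_mono_left ((Ideal.span_singleton_le_iff_mem _).mpr hf) hx
      obtain ⟨y, hy⟩ := Ideal.mem_span_singleton'.mp h2
      refine Ideal.mem_span_singleton_mul.mpr ⟨y, (hJ y).mpr ?_, ?_⟩
      · rw [mul_comm d y, hy]
        exact hx
      · rw [mul_comm d y, hy]
  refine ⟨J, ?_⟩
  have h3 : Ideal.span {d} * (I * J) = Ideal.span {d} * Ideal.span {f} := by
    calc Ideal.span {d} * (I * J) = I * (Ideal.span {d} * J) := mul_left_comm _ _ _
      _ = I * (Ideal.span {f} * I') := by rw [h1]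
      _ = Ideal.span {f} * (I * I') := mul_left_comm _ _ _
      _ = Ideal.span {f} * Ideal.span {d} := by rw [h]
      _ = Ideal.span {d} * Ideal.span {f} := mul_comm _ _
  exact (Ideal.span_singleton_mul_right_inj hd).mp h3

theorem cls (h1 : T_PTM.{u}) (h2 : T_MIN.{u}) (h3 : T_INV.{u}) : T_CLS.{u} := by
  classical
  intro k _ W hW c
  obtain ⟨I, I', d, U, hd, hII, hU, hc⟩ := exists_rep (R := W.CoordinateRing) (Additive.toMul c)
  have hI0 : I ≠ ⊥ := by
    rintro rfl
    rw [Ideal.bot_mul] at hII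
    exact hd (Ideal.span_singleton_eq_bot.mp hII.symm)
  obtain ⟨-, f, hfI, hf0, hfin, hdim⟩ := h2 k W I hI0
  obtain ⟨J, hJ⟩ := exists_quot hd hII hfI
  rcases h3 k W.CoordinateRing I J f hf0 hJ hfin hdim with rfl | ⟨h, rfl⟩
  · rw [Ideal.mul_top] at hJ
    refine ⟨0, ?_⟩
    rw [map_zero]
    apply Additive.toMul.injective
    rw [← hc]
    exact ((ClassGroup.mk_eq_one_of_coe_ideal hU).mpr ⟨f, hf0, hJ⟩).symm
  · obtain ⟨x, y, hxy, hker⟩ := h1 k W h
    have hns : W.Nonsingular x y := WeierstrassCurve.Affine.equation_iff_nonsingular.mp hxy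
    rw [hker] at hJ
    refine ⟨-(WeierstrassCurve.Affine.Point.some x y hns), ?_⟩
    rw [map_neg]
    have h4 : ClassGroup.mk (FractionRing W.CoordinateRing) U *
        ClassGroup.mk W.FunctionField
          (WeierstrassCurve.Affine.CoordinateRing.XYIdeal' (W := W) hns) = 1 := by
      have h5 : ClassGroup.mk W.FunctionField
          (U * WeierstrassCurve.Affine.CoordinateRing.XYIdeal' (W := W) hns) = 1 := by
        refine (ClassGroup.mk_eq_one_of_coe_ideal (I' := Ideal.span {f}) ?_).mpr ⟨f, hf0, rfl⟩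
        rw [← hJ, FractionalIdeal.coeIdeal_mul, Units.val_mul]
        exact congrArg₂ (· * ·) hU (WeierstrassCurve.Affine.CoordinateRing.XYIdeal'_eq hns)
      rw [map_mul] at h5
      exact h5
    rw [neg_eq_iff_eq_neg]
    apply Additive.toMul.injective
    show ClassGroup.mk W.FunctionField
          (WeierstrassCurve.Affine.CoordinateRing.XYIdeal' (W := W) hns) = (Additive.toMul c)⁻¹
    rw [← hc]
    exact eq_inv_of_mul_eq_one_right h4

end Pool.Agent.H14.EC
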