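import Pool.Agent.H13.EC.Defs

/-!
# EC board, module ISO: completing the square
-/

open Polynomial

namespace Pool.Agent.H14.EC

open Pool.Agent.H13.EC

universe u

/-- Completing the square. -/
theorem complete_square {A : Type u} [CommRing A] (h L F : A) (hh : 2 * h = 1) :
    Nonempty (AdjoinRoot (X ^ 2 + C L * X - C F : A[X]) ≃+*
      AdjoinRoot (X ^ 2 - C (L ^ 2 + 4 * F) : A[X])) := by
  set p : A[X] := X ^ 2 + C L * X - C F with hp
  set q : A[X] := X ^ 2 - C (L ^ 2 + 4 * F) with hq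
  have f4 : AdjoinRoot.of q (4 : A) = 4 := map_ofNat (AdjoinRoot.of q) 4
  have f2 : AdjoinRoot.of q (2 : A) = 2 := map_ofNat (AdjoinRoot.of q) 2
  have g2 : AdjoinRoot.of p (2 : A) = 2 := map_ofNat (AdjoinRoot.of p) 2
  have g4 : AdjoinRoot.of p (4 : A) = 4 := map_ofNat (AdjoinRoot.of p) 4
  have hp0 : (AdjoinRoot.root p) ^ 2 + AdjoinRoot.of p L * AdjoinRoot.root p -
      AdjoinRoot.of p F = 0 := by
    have h1 := AdjoinRoot.eval₂_root p
    rw [hp] at h1
    simpa [eval₂_add, eval₂_mul, eval₂_sub, eval₂_pow, eval₂_X, eval₂_C] using h1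
  have hq0 : (AdjoinRoot.root q) ^ 2 -
      ((AdjoinRoot.of q L) ^ 2 + 4 * AdjoinRoot.of q F) = 0 := by
    have h1 := AdjoinRoot.eval₂_root q
    have h2 : q.eval₂ (AdjoinRoot.of q) (AdjoinRoot.root q) = (AdjoinRoot.root q) ^ 2 -
      ((AdjoinRoot.of q L) ^ 2 + 4 * AdjoinRoot.of q F) := by
      show (X ^ 2 - C (L ^ 2 + 4 * F) : A[X]).eval₂ (AdjoinRoot.of q) (AdjoinRoot.root q) = _
      rw [eval₂_sub, eval₂_pow, eval₂_X, eval₂_C, map_add, map_mul, map_pow, f4]
    rw [← h2]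
    exact h1
  have hhq : 2 * AdjoinRoot.of q h = 1 := by
    have := congrArg (AdjoinRoot.of q) hh
    rwa [map_mul, map_one, f2] at this
  have hhp : 2 * AdjoinRoot.of p h = 1 := by
    have := congrArg (AdjoinRoot.of p) hh
    rwa [map_mul, map_one, g2] at this
  have e1 : p.eval₂ (AdjoinRoot.of q)
      (AdjoinRoot.of q h * (AdjoinRoot.root q - AdjoinRoot.of q L)) = 0 := by
    rw [hp]
    simp only [eval₂_add, eval₂_mul, eval₂_sub, eval₂_pow, eval₂_X, eval₂_C]
    linear_combination (AdjoinRoot.of q h) ^ 2 * hq0 +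
      (AdjoinRoot.of q F * (2 * AdjoinRoot.of q h + 1) +
        (AdjoinRoot.of q L) * (AdjoinRoot.of q h) * (AdjoinRoot.root q - AdjoinRoot.of q L) * (-1)) * hhq
  have e2 : q.eval₂ (AdjoinRoot.of p) (2 * AdjoinRoot.root p + AdjoinRoot.of p L) = 0 := by
    rw [hq, eval₂_sub, eval₂_pow, eval₂_X, eval₂_C, map_add, map_mul, map_pow, g4]
    linear_combination 4 * hp0
  refine ⟨RingEquiv.ofRingHom (AdjoinRoot.lift (AdjoinRoot.of q) _ e1)
    (AdjoinRoot.lift (AdjoinRoot.of p) _ e2) ?_ ?_⟩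
  · apply AdjoinRoot.ringHom_ext
    · rw [RingHom.comp_assoc, AdjoinRoot.lift_comp_of, AdjoinRoot.lift_comp_of, RingHom.id_comp]
    · rw [RingHom.comp_apply, AdjoinRoot.lift_root, RingHom.id_apply, map_add, map_mul,
        AdjoinRoot.lift_root, AdjoinRoot.lift_of, map_ofNat]
      linear_combination (AdjoinRoot.root q - AdjoinRoot.of q L) * hhq
  · apply AdjoinRoot.ringHom_ext
    · rw [RingHom.comp_assoc, AdjoinRoot.lift_comp_of, AdjoinRoot.lift_comp_of, RingHom.id_comp]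
    · rw [RingHom.comp_apply, AdjoinRoot.lift_root, RingHom.id_apply, map_mul, map_sub,
        AdjoinRoot.lift_root, AdjoinRoot.lift_of, AdjoinRoot.lift_of]
      linear_combination (AdjoinRoot.root p) * hhp

theorem iso : T_ISO.{u} := by
  intro k _ W hW h2
  have h4 : (4 : k) ≠ 0 := by
    have : (4 : k) = 2 * 2 := by norm_num
    rw [this]
    exact mul_ne_zero h2 h2
  have hP : (C 4 * X ^ 3 + C W.b₂ * X ^ 2 + C (2 * W.b₄) * X + C W.b₆ : k[X]) =
      W.twoTorsionPolynomial.toPoly := rfl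
  refine ⟨?_, ?_, ?_⟩
  · rw [hP]
    have hd : W.twoTorsionPolynomial.discr ≠ 0 :=
      W.twoTorsionPolynomial_discr_ne_zero_of_isElliptic (isUnit_iff_ne_zero.mpr h2)
    have ha : W.twoTorsionPolynomial.a ≠ 0 := h4
    have hs : (W.twoTorsionPolynomial.toPoly.map (algebraMap k (AlgebraicClosure k))).Splits :=
      IsAlgClosed.splits _
    have hn := (Cubic.discr_ne_zero_iff_roots_nodup (φ := algebraMap k (AlgebraicClosure k))
      ha hs).mp hd
    rw [Cubic.map_roots] at hn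
    have hne : W.twoTorsionPolynomial.toPoly.map (algebraMap k (AlgebraicClosure k)) ≠ 0 :=
      Polynomial.map_ne_zero (Cubic.ne_zero_of_a_ne_zero ha)
    exact (separable_map (algebraMap k (AlgebraicClosure k))).mp
      ((nodup_roots_iff_of_splits hne hs).mp hn)
  · rw [hP]
    exact Cubic.natDegree_of_a_ne_zero h4
  · have hh : (2 : k[X]) * C ((2 : k)⁻¹) = 1 := by
      have : (2 : k[X]) = C 2 := (map_ofNat C 2).symm
      rw [this, ← C_mul, mul_inv_cancel₀ h2, C_1]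
    obtain ⟨e⟩ := complete_square (C ((2 : k)⁻¹)) (C W.a₁ * X + C W.a₃)
      (X ^ 3 + C W.a₂ * X ^ 2 + C W.a₄ * X + C W.a₆) hh
    have hg : ((C W.a₁ * X + C W.a₃) ^ 2 + 4 * (X ^ 3 + C W.a₂ * X ^ 2 + C W.a₄ * X + C W.a₆)
        : k[X]) = C 4 * X ^ 3 + C W.b₂ * X ^ 2 + C (2 * W.b₄) * X + C W.b₆ := by
      have c4 : (C 4 : k[X]) = 4 := map_ofNat C 4
      have c2 : (C 2 : k[X]) = 2 := map_ofNat C 2
      simp only [WeierstrassCurve.b₂, WeierstrassCurve.b₄, WeierstrassCurve.b₆, C_add, C_mul,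
        C_pow, c4, c2]
      ring
    rw [hg] at e
    exact ⟨e⟩

end Pool.Agent.H14.EC
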